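import Mathlib
import Pool.Agent.V11332.Lorenz

namespace Pool.Agent.Results.MP_357d86_pr.DensityNotEnough

open MeasureTheory ProbabilityTheory Set Filter Topology
open Pool.Agent.V11332.Lorenz

/-- `P` is the probability measure on `[0,1]²` with distribution function `L`. -/
structure HasDF (P : Measure (ℝ × ℝ)) (L : ℝ → ℝ → ℝ) : Prop where
  prob : IsProbabilityMeasure P
  supp : P (Icc 0 1 ×ˢ Icc 0 1)ᶜ = 0
  df : ∀ x ∈ Icc (0 : ℝ) 1, ∀ y ∈ Icc (0 : ℝ) 1, P.real (Iic x ×ˢ Iic y) = L x y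

/-- `P n` is the law with distribution function `Lⁿ`, where `L⁰ = L_F`, `Lⁿ⁺¹ = L_{Lⁿ}`. -/
structure IsLorenzIteration (F : Measure (ℝ × ℝ)) (P : ℕ → Measure (ℝ × ℝ)) : Prop where
  zero : HasDF (P 0) (lorenz F)
  succ : ∀ n, HasDF (P (n + 1)) (lorenz (P n))

/-- The distribution function `Lⁿ`. -/
noncomputable def df (P : Measure (ℝ × ℝ)) (x y : ℝ) : ℝ := P.real (Iic x ×ˢ Iic y)

/-! ### Uniqueness -/

lemma df_clamp {P : Measure (ℝ × ℝ)} {L : ℝ → ℝ → ℝ} (h : HasDF P L) (x y : ℝ) :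
    P.real (Iic x ×ˢ Iic y) =
      if x < 0 ∨ y < 0 then 0 else L (min x 1) (min y 1) := by
  have hs := h.supp
  rw [measure_eq_zero_iff_ae_notMem] at hs
  split_ifs with hxy
  · rw [measureReal_def, ENNReal.toReal_eq_zero_iff]
    left
    rw [measure_eq_zero_iff_ae_notMem]
    filter_upwards [hs] with u hu hu'
    simp only [mem_compl_iff, not_not, mem_prod, mem_Icc, mem_Iic] at hu hu'
    rcases hxy with hx | hy
    · linarith [hu.1.1, hu'.1]
    · linarith [hu.2.1, hu'.2]
  · push Not at hxy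
    rw [← h.df _ ⟨le_min hxy.1 zero_le_one, min_le_right _ _⟩ _
      ⟨le_min hxy.2 zero_le_one, min_le_right _ _⟩]
    refine measureReal_congr ?_
    filter_upwards [hs] with u hu
    simp only [mem_compl_iff, not_not, mem_prod, mem_Icc] at hu
    simp only [eq_iff_iff]
    change u ∈ Iic x ×ˢ Iic y ↔ u ∈ Iic (min x 1) ×ˢ Iic (min y 1)
    simp only [mem_prod, mem_Iic, le_min_iff]
    tauto

lemma unique {P Q : Measure (ℝ × ℝ)} {L : ℝ → ℝ → ℝ} (hP : HasDF P L) (hQ : HasDF Q L) :
    P = Q := by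
  have := hP.prob
  have := hQ.prob
  have hspan : IsCountablySpanning (range (Iic : ℝ → Set ℝ)) := by
    refine ⟨fun n => Iic (n : ℝ), fun n => mem_range_self _, ?_⟩
    rw [Set.eq_univ_iff_forall]
    intro x
    obtain ⟨n, hn⟩ := exists_nat_ge x
    exact mem_iUnion.2 ⟨n, hn⟩
  have hgen : (inferInstance : MeasurableSpace (ℝ × ℝ)) =
      MeasurableSpace.generateFrom (image2 (· ×ˢ ·) (range (Iic : ℝ → Set ℝ))
        (range (Iic : ℝ → Set ℝ))) := by
    rw [← generateFrom_prod_eq hspan hspan, ← borel_eq_generateFrom_Iic,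
      ← BorelSpace.measurable_eq (α := ℝ)]
  refine ext_of_generate_finite _ hgen (isPiSystem_Iic.prod isPiSystem_Iic) ?_ (by simp)
  rintro _ ⟨_, ⟨x, rfl⟩, _, ⟨y, rfl⟩, rfl⟩
  have h1 := df_clamp hP x y
  rw [← df_clamp hQ x y] at h1
  exact (measureReal_eq_measureReal_iff).1 h1

/-! ### The canonical iteration -/

noncomputable def it (F : Measure (ℝ × ℝ)) : ℕ → Measure (ℝ × ℝ)
  | 0 => step F
  | n + 1 => step (it F n)

lemma it_good {F : Measure (ℝ × ℝ)} (hF : Good F) : ∀ n, Good (it F n)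
  | 0 => step_good hF
  | n + 1 => step_good (it_good hF n)

lemma it_supp {F : Measure (ℝ × ℝ)} : ∀ n, it F n (Icc 0 1 ×ˢ Icc 0 1)ᶜ = 0
  | 0 => step_supp
  | _ + 1 => step_supp

lemma step_hasDF {F : Measure (ℝ × ℝ)} (hF : Good F) : HasDF (step F) (lorenz F) :=
  ⟨step_prob hF, step_supp, fun x _ y _ => step_df hF x y⟩

lemma it_iter {F : Measure (ℝ × ℝ)} (hF : Good F) : IsLorenzIteration F (it F) :=
  ⟨step_hasDF hF, fun n => step_hasDF (it_good hF n)⟩

lemma eq_it {F : Measure (ℝ × ℝ)} (hF : Good F) {P : ℕ → Measure (ℝ × ℝ)}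
    (hP : IsLorenzIteration F P) : ∀ n, P n = it F n
  | 0 => unique hP.zero (it_iter hF).zero
  | n + 1 => by
    have h1 := hP.succ n
    rw [eq_it hF hP n] at h1
    exact unique h1 ((it_iter hF).succ n)

/-! ### The main argument -/

lemma df_one_right {P : Measure (ℝ × ℝ)} (hs : P (Icc 0 1 ×ˢ Icc 0 1)ᶜ = 0) (x : ℝ) :
    df P x 1 = P.real {u | u.1 ≤ x} := by
  rw [measure_eq_zero_iff_ae_notMem] at hs
  refine measureReal_congr ?_
  filter_upwards [hs] with u hu
  simp only [mem_compl_iff, not_not, mem_prod, mem_Icc] at hu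
  simp only [eq_iff_iff]
  change u ∈ Iic x ×ˢ Iic 1 ↔ u.1 ≤ x
  simp only [mem_prod, mem_Iic]
  tauto

lemma df_one_left {P : Measure (ℝ × ℝ)} (hs : P (Icc 0 1 ×ˢ Icc 0 1)ᶜ = 0) (x : ℝ) :
    df P 1 x = P.real {u | u.2 ≤ x} := by
  rw [measure_eq_zero_iff_ae_notMem] at hs
  refine measureReal_congr ?_
  filter_upwards [hs] with u hu
  simp only [mem_compl_iff, not_not, mem_prod, mem_Icc] at hu
  simp only [eq_iff_iff]
  change u ∈ Iic 1 ×ˢ Iic x ↔ u.2 ≤ x
  simp only [mem_prod, mem_Iic]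
  tauto

lemma df_thr {P : Measure (ℝ × ℝ)} {s p : ℝ} (hT : Thr P s s p) : df P s s = p := by
  rw [← hT.2]
  refine measureReal_congr ?_
  filter_upwards [hT.1] with u hu
  simp only [eq_iff_iff]
  change u ∈ Iic s ×ˢ Iic s ↔ u.1 ≤ s
  simp only [mem_prod, mem_Iic]
  tauto

/-- The sequence of thresholds. -/
noncomputable def q (F : Measure (ℝ × ℝ)) (s : ℝ) : ℕ → ℝ
  | 0 => F.real {u | u.1 ≤ s}
  | n + 1 => (it F n).real {u | u.1 ≤ q F s n}

section
variable {F : Measure (ℝ × ℝ)} (hF : Good F) {s t : ℝ}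
  (hae : ∀ᵐ u ∂F, (u.1 ≤ s ↔ u.2 ≤ t))
include hF hae

lemma q_thr : ∀ n, Thr (it F n) (q F s n) (q F s n) (q F s (n + 1))
  | 0 => by
    have h := thr_step hF (s := s) (t := t) (p := q F s 0) ⟨hae, rfl⟩
    exact ⟨h.1, rfl⟩
  | n + 1 => by
    have h := thr_step (it_good hF n) (q_thr n)
    exact ⟨h.1, rfl⟩

lemma q_nxt : ∀ n, q F s (n + 2) = nxt (it F n) (q F s n) := fun n => by
  have h := thr_step (it_good hF n) (q_thr hF hae n)
  exact h.2

lemma q_nxt0 : q F s 1 = nxt F s := by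
  have h := thr_step hF (s := s) (t := t) (p := q F s 0) ⟨hae, rfl⟩
  exact h.2

omit hF hae in
lemma q_nonneg : ∀ n, 0 ≤ q F s n
  | 0 => measureReal_nonneg
  | _ + 1 => measureReal_nonneg

lemma q_anti1 (hs : 0 ≤ s) (ht : 0 ≤ t) : ∀ n, q F s (n + 1) ≤ q F s n
  | 0 => by
    rw [q_nxt0 hF hae]
    exact nxt_le hF hs ht ⟨hae, rfl⟩
  | n + 1 => by
    rw [q_nxt hF hae]
    exact nxt_le (it_good hF n) (q_nonneg n) (q_nonneg n) (q_thr hF hae n)

end

lemma phi_gt : (3 / 2 : ℝ) < Real.goldenRatio := by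
  have h : (2 : ℝ) < Real.sqrt 5 := by
    rw [Real.lt_sqrt (by norm_num)]; norm_num
  unfold Real.goldenRatio
  linarith

lemma half_pow : (1 / 2 : ℝ) ^ Real.goldenRatio ≤ 354 / 1000 := by
  have h1 : (1 / 2 : ℝ) ^ Real.goldenRatio ≤ (1 / 2 : ℝ) ^ (3 / 2 : ℝ) :=
    Real.rpow_le_rpow_of_exponent_ge (by norm_num) (by norm_num) phi_gt.le
  refine h1.trans ?_
  have h2 : ((1 / 2 : ℝ) ^ (3 / 2 : ℝ)) ^ 2 = 1 / 8 := by
    rw [← Real.rpow_natCast, ← Real.rpow_mul (by norm_num)]
    norm_num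
  have h3 : 0 ≤ (1 / 2 : ℝ) ^ (3 / 2 : ℝ) := Real.rpow_nonneg (by norm_num) _
  nlinarith

/-- Both conclusions cannot hold when there are common thresholds tending to infinity. -/
theorem main {F : Measure (ℝ × ℝ)} (hF : Good F) (s : ℕ → ℝ) (hs0 : ∀ k, 0 ≤ s k)
    (hae : ∀ k, ∀ᵐ u ∂F, (u.1 ≤ s k ↔ u.2 ≤ s k))
    (hlt : ∀ k, F.real {u | u.1 ≤ s k} < 1)
    (hall : ∀ᵐ u ∂F, ∃ k, u.1 ≤ s k) (hmono : Monotone s)
    (h1 : TendstoUniformlyOn (fun n x => df (it F n) x 1) (fun x => x ^ Real.goldenRatio)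
      atTop (Icc 0 1))
    (h2 : TendstoUniformlyOn (fun n x => df (it F n) 1 x) (fun x => x ^ Real.goldenRatio)
      atTop (Icc 0 1))
    (h3 : TendstoUniformlyOn (fun n (z : ℝ × ℝ) => df (it F n) z.1 z.2 -
      df (it F n) z.1 1 * df (it F n) 1 z.2) (fun _ => 0) atTop (Icc 0 1 ×ˢ Icc 0 1)) :
    False := by
  have hprobF := hF.prob
  rw [Metric.tendstoUniformlyOn_iff] at h1 h2 h3
  have key := ((h1 (1 / 1000) (by norm_num)).and ((h2 (1 / 1000) (by norm_num)).and
    (h3 (1 / 1000) (by norm_num))))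
  obtain ⟨N, hN⟩ := eventually_atTop.1 key
  have q01 : ∀ k n, q F (s k) n ∈ Icc (0 : ℝ) 1 := by
    intro k n
    refine ⟨q_nonneg n, ?_⟩
    cases n with
    | zero => exact measureReal_le_one
    | succ n =>
      have := (it_good hF n).prob
      exact measureReal_le_one
  have qanti : ∀ k, Antitone (q F (s k)) := fun k =>
    antitone_nat_of_succ_le (q_anti1 hF (hae k) (hs0 k) (hs0 k))
  -- dichotomy
  have hdich : ∀ k n, N ≤ n → q F (s k) (n + 1) < 1 / 100 ∨ 99 / 100 < q F (s k) (n + 1) := by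
    intro k n hn
    have hthr := q_thr hF (hae k) n
    have h4 := (hN n hn).2.2 (q F (s k) n, q F (s k) n) ⟨q01 k n, q01 k n⟩
    simp only [] at h4
    rw [df_thr hthr, df_one_right (it_supp n), df_one_left (it_supp n), hthr.2,
      thr_snd hthr, dist_comm, Real.dist_eq, sub_zero] at h4
    by_contra hcon
    push Not at hcon
    have h5 := (abs_lt.1 h4).2
    nlinarith [hcon.1, hcon.2]
  -- no jump
  have hjump : ∀ k n, N ≤ n → 99 / 100 < q F (s k) (n + 1) → 99 / 100 < q F (s k) (n + 2) := by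
    intro k n hn hq
    refine (hdich k (n + 1) (by omega)).resolve_left ?_
    rw [not_lt]
    have hthr := q_thr hF (hae k) n
    have h4 := nxt_ge (it_good hF n) (it_supp n) hthr
    rw [← q_nxt hF (hae k)] at h4
    have h5 := (hN n hn).1 (1 / 2) ⟨by norm_num, by norm_num⟩
    have h6 := (hN n hn).2.1 (1 / 2) ⟨by norm_num, by norm_num⟩
    rw [df_one_right (it_supp n), dist_comm, Real.dist_eq] at h5
    rw [df_one_left (it_supp n), dist_comm, Real.dist_eq] at h6
    have h7 := (abs_lt.1 h5).2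
    have h8 := (abs_lt.1 h6).2
    have h9 := half_pow
    linarith
  -- positivity along the sequence of thresholds: choose `k` with large mass at time `N + 1`
  have hk : ∃ k, 99 / 100 < q F (s k) (N + 1) := by
    -- lower bound for `q` in terms of the initial mass
    -- transfer: at each stage the thresholds eventually capture everything
    have cap : ∀ n, Tendsto (fun k => q F (s k) n) atTop (𝓝 1) := by
      have gen : ∀ (P : Measure (ℝ × ℝ)) [IsProbabilityMeasure P] (a : ℕ → ℝ), Monotone a →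
          (∀ᵐ u ∂P, ∃ k, u.1 ≤ a k) →
          Tendsto (fun k => P.real {u | u.1 ≤ a k}) atTop (𝓝 1) := by
        intro P hP a ha hau
        have hm : Monotone fun k => {u : ℝ × ℝ | u.1 ≤ a k} := fun i j hij u hu =>
          le_trans (show u.1 ≤ a i from hu) (ha hij)
        have h5 := tendsto_measure_iUnion_atTop (μ := P) hm
        have h6 : P (⋃ k, {u : ℝ × ℝ | u.1 ≤ a k}) = 1 := by
          rw [← prob_compl_eq_zero_iff (MeasurableSet.iUnion fun k => meas_le _),
            measure_eq_zero_iff_ae_notMem]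
          filter_upwards [hau] with u ⟨k, hk⟩
          simp only [mem_compl_iff, not_not, mem_iUnion]
          exact ⟨k, hk⟩
        rw [h6] at h5
        have h7 := (ENNReal.tendsto_toReal ENNReal.one_ne_top).comp h5
        rw [ENNReal.toReal_one] at h7
        exact h7
      intro n
      induction n with
      | zero => exact gen F s hmono hall
      | succ n ih =>
        have hprob := (it_good hF n).prob
        have hqm : Monotone fun k => q F (s k) n := by
          have : ∀ m i j, i ≤ j → q F (s i) m ≤ q F (s j) m := by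
            intro m
            induction m with
            | zero =>
              intro i j hij
              exact measureReal_mono fun u hu => le_trans (show u.1 ≤ s i from hu) (hmono hij)
            | succ m ihm =>
              intro i j hij
              have := (it_good hF m).prob
              exact measureReal_mono fun u hu => le_trans (show u.1 ≤ _ from hu) (ihm i j hij)
          exact fun i j hij => this n i j hij
        refine gen (it F n) _ hqm ?_
        -- almost every point has first coordinate `< 1`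
        have hg := it_good hF n
        have hne : ∀ᵐ u ∂(it F n), u.1 ≠ 1 := by
          have h5 := hg.na1
          have h6 : ((it F n).map Prod.fst) {1} = 0 := measure_singleton 1
          exact ae_of_ae_map measurable_fst.aemeasurable
            (measure_eq_zero_iff_ae_notMem.1 h6)
        have hsu := it_supp (F := F) n
        rw [measure_eq_zero_iff_ae_notMem] at hsu
        filter_upwards [hne, hsu] with u hu1 hu2
        simp only [mem_compl_iff, not_not, mem_prod, mem_Icc] at hu2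
        have hlt1 : u.1 < 1 := lt_of_le_of_ne hu2.1.2 hu1
        obtain ⟨k, hk⟩ := (ih.eventually (lt_mem_nhds hlt1)).exists
        exact ⟨k, hk.le⟩
    exact ((cap (N + 1)).eventually (lt_mem_nhds (by norm_num))).exists
  obtain ⟨k, hk⟩ := hk
  have hstay : ∀ n, N ≤ n → 99 / 100 < q F (s k) (n + 1) := by
    intro n hn
    induction n, hn using Nat.le_induction with
    | base => exact hk
    | succ n hn ih => exact hjump k n hn ih
  -- the limit
  have hbdd : BddBelow (range (q F (s k))) := ⟨0, by rintro _ ⟨n, rfl⟩; exact (q01 k n).1⟩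
  have hlim := tendsto_atTop_ciInf (qanti k) hbdd
  set l := ⨅ n, q F (s k) n with hl
  have hl1 : l < 1 := lt_of_le_of_lt (ciInf_le hbdd 0) (hlt k)
  have hl0 : 99 / 100 ≤ l := by
    refine ge_of_tendsto ((tendsto_add_atTop_iff_nat 1).2 hlim) ?_
    filter_upwards [eventually_ge_atTop N] with n hn
    exact (hstay n hn).le
  have hpow : Tendsto (fun n => q F (s k) (n + 1) - (q F (s k) n) ^ Real.goldenRatio)
      atTop (𝓝 0) := by
    rw [Metric.tendsto_nhds]
    intro ε hε
    filter_upwards [h1 ε hε] with n hn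
    have h4 := hn _ (q01 k n)
    have hthr := q_thr hF (hae k) n
    rw [df_one_right (it_supp n), hthr.2, dist_comm, Real.dist_eq] at h4
    rw [Real.dist_eq, sub_zero]
    exact h4
  have hpow2 : Tendsto (fun n => q F (s k) (n + 1) - (q F (s k) n) ^ Real.goldenRatio)
      atTop (𝓝 (l - l ^ Real.goldenRatio)) := by
    refine ((tendsto_add_atTop_iff_nat 1).2 hlim).sub (hlim.rpow_const ?_)
    left; linarith
  have heq := tendsto_nhds_unique hpow hpow2
  have hcon : l ^ Real.goldenRatio < l := by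
    calc l ^ Real.goldenRatio < l ^ (1 : ℝ) :=
          Real.rpow_lt_rpow_of_exponent_gt (by linarith) hl1 (by linarith [phi_gt])
      _ = l := Real.rpow_one l
  linarith

/-! ### The example -/

noncomputable def a (k : ℕ) : ℝ := 1 - (1 / 2) ^ k

lemma a_strict : StrictMono a := by
  refine strictMono_nat_of_lt_succ fun k => ?_
  unfold a
  have : (0 : ℝ) < (1 / 2) ^ k := by positivity
  rw [pow_succ]
  linarith

lemma a_nonneg (k : ℕ) : 0 ≤ a k := by
  have := a_strict.monotone (Nat.zero_le k)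
  simpa [a] using this

lemma a_lt_one (k : ℕ) : a k < 1 := by
  unfold a
  have : (0 : ℝ) < (1 / 2) ^ k := by positivity
  linarith

/-- The union of the squares `(a k, a (k+1))²`. -/
def D : Set (ℝ × ℝ) := ⋃ k, Ioo (a k) (a (k + 1)) ×ˢ Ioo (a k) (a (k + 1))

lemma D_meas : MeasurableSet D :=
  MeasurableSet.iUnion fun _ => measurableSet_Ioo.prod measurableSet_Ioo

lemma blk_pos (k : ℕ) :
    0 < (volume : Measure (ℝ × ℝ)) (Ioo (a k) (a (k + 1)) ×ˢ Ioo (a k) (a (k + 1))) := by
  rw [Measure.volume_eq_prod, Measure.prod_prod, Real.volume_Ioo]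
  have : 0 < a (k + 1) - a k := sub_pos.2 (a_strict (Nat.lt_succ_self k))
  exact ENNReal.mul_pos (ENNReal.ofReal_pos.2 this).ne' (ENNReal.ofReal_pos.2 this).ne'

lemma D_pos : (volume : Measure (ℝ × ℝ)) D ≠ 0 :=
  ((blk_pos 0).trans_le (measure_mono (subset_iUnion_of_subset 0 subset_rfl))).ne'

lemma D_sub : D ⊆ Ioo 0 1 ×ˢ Ioo 0 1 := by
  rintro u hu
  obtain ⟨k, h1, h2⟩ := mem_iUnion.1 hu
  exact ⟨⟨(a_nonneg k).trans_lt h1.1, h1.2.trans (a_lt_one _)⟩,
    ⟨(a_nonneg k).trans_lt h2.1, h2.2.trans (a_lt_one _)⟩⟩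

lemma D_fin : (volume : Measure (ℝ × ℝ)) D ≠ ⊤ := by
  refine ne_top_of_le_ne_top ?_ (measure_mono D_sub)
  rw [Measure.volume_eq_prod, Measure.prod_prod, Real.volume_Ioo]
  exact ENNReal.mul_ne_top ENNReal.ofReal_ne_top ENNReal.ofReal_ne_top

/-- The uniform distribution on `D`. -/
noncomputable def U : Measure (ℝ × ℝ) := (volume D)⁻¹ • volume.restrict D

lemma U_prob : IsProbabilityMeasure U := by
  refine ⟨?_⟩
  rw [U, Measure.smul_apply, Measure.restrict_apply_univ, smul_eq_mul,
    ENNReal.inv_mul_cancel D_pos D_fin]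

lemma U_ac : U ≪ volume := by
  refine Measure.AbsolutelyContinuous.trans ?_ Measure.restrict_le_self.absolutelyContinuous
    (μ₂ := volume.restrict D)
  exact Measure.smul_absolutelyContinuous

lemma U_ae : ∀ᵐ u ∂U, u ∈ D := by
  have h1 : ∀ᵐ u ∂(volume.restrict D), u ∈ D := ae_restrict_mem D_meas
  exact Measure.smul_absolutelyContinuous.ae_le h1

lemma U_pos {A : Set (ℝ × ℝ)} (hA : MeasurableSet A) (h : 0 < volume (A ∩ D)) : 0 < U A := by
  rw [U, Measure.smul_apply, Measure.restrict_apply hA, smul_eq_mul]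
  exact ENNReal.mul_pos (ENNReal.inv_ne_zero.2 D_fin) h.ne'

lemma U_bdd {f : ℝ × ℝ → ℝ} (hf : Measurable f) (h : ∀ u ∈ D, ‖f u‖ ≤ 1) : Integrable f U := by
  have := U_prob
  refine Integrable.of_bound hf.aestronglyMeasurable 1 ?_
  filter_upwards [U_ae] with u hu
  exact h u hu

lemma U_good : Good U := by
  refine ⟨U_prob, ?_, ?_, ⟨fun c => ?_⟩, ⟨fun c => ?_⟩⟩
  · filter_upwards [U_ae] with u hu
    have := D_sub hu
    exact ⟨this.1.1, this.2.1⟩
  · refine U_bdd (measurable_fst.mul measurable_snd) fun u hu => ?_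
    have := D_sub hu
    rw [Real.norm_eq_abs, abs_of_nonneg (mul_nonneg this.1.1.le this.2.1.le)]
    exact mul_le_one₀ this.1.2.le this.2.1.le this.2.2.le
  · rw [Measure.map_apply measurable_fst (measurableSet_singleton c)]
    refine U_ac ?_
    have : (Prod.fst ⁻¹' {c} : Set (ℝ × ℝ)) = {c} ×ˢ univ := by ext; simp
    rw [this, Measure.volume_eq_prod, Measure.prod_prod]
    simp
  · rw [Measure.map_apply measurable_snd (measurableSet_singleton c)]
    refine U_ac ?_
    have : (Prod.snd ⁻¹' {c} : Set (ℝ × ℝ)) = univ ×ˢ {c} := by ext; simp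
    rw [this, Measure.volume_eq_prod, Measure.prod_prod]
    simp

lemma D_iff {u : ℝ × ℝ} (hu : u ∈ D) (k : ℕ) : u.1 ≤ a k ↔ u.2 ≤ a k := by
  obtain ⟨j, h1, h2⟩ := mem_iUnion.1 hu
  rcases lt_or_ge j k with h | h
  · have := a_strict.monotone (Nat.succ_le_of_lt h)
    exact ⟨fun _ => h2.2.le.trans this, fun _ => h1.2.le.trans this⟩
  · have := a_strict.monotone h
    exact ⟨fun h3 => absurd h3 (not_le.2 (this.trans_lt h1.1)),
      fun h3 => absurd h3 (not_le.2 (this.trans_lt h2.1))⟩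

lemma U_lt (k : ℕ) : U.real {u | u.1 ≤ a k} < 1 := by
  have := U_prob
  have hA := meas_le (a k)
  have h1 : 0 < U.real {u : ℝ × ℝ | u.1 ≤ a k}ᶜ := by
    rw [measureReal_def, ENNReal.toReal_pos_iff]
    refine ⟨U_pos hA.compl ?_, measure_lt_top _ _⟩
    refine (blk_pos k).trans_le (measure_mono ?_)
    intro u hu
    refine ⟨?_, mem_iUnion.2 ⟨k, hu⟩⟩
    simp only [mem_compl_iff, Set.mem_ofPred_eq, not_le]
    exact hu.1.1
  rw [probReal_compl_eq_one_sub hA] at h1
  linarith

/-- There is a random vector with a density for which the iterated bivariate Lorenz curves do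
not have the conjectured limit behaviour: conclusions (i) and (ii) do not both hold. -/
theorem result :
    ∃ F : Measure (ℝ × ℝ), IsProbabilityMeasure F ∧ F ≪ volume ∧
      (∀ᵐ u ∂F, 0 ≤ u.1 ∧ 0 ≤ u.2) ∧
      Integrable (fun u => u.1) F ∧ Integrable (fun u => u.2) F ∧
      Integrable (fun u => u.1 * u.2) F ∧
      0 < ∫ u, u.1 ∂F ∧ 0 < ∫ u, u.2 ∂F ∧ 0 < ∫ u, u.1 * u.2 ∂F ∧
      (∃ P, IsLorenzIteration F P) ∧
      ∀ P, IsLorenzIteration F P →
        ¬ (TendstoUniformlyOn (fun n x => df (P n) x 1) (fun x => x ^ Real.goldenRatio)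
            atTop (Icc 0 1) ∧
          TendstoUniformlyOn (fun n x => df (P n) 1 x) (fun x => x ^ Real.goldenRatio)
            atTop (Icc 0 1) ∧
          TendstoUniformlyOn (fun n (z : ℝ × ℝ) => df (P n) z.1 z.2 -
            df (P n) z.1 1 * df (P n) 1 z.2) (fun _ => 0) atTop (Icc 0 1 ×ˢ Icc 0 1)) := by
  have hprob := U_prob
  have i1 : Integrable (fun u : ℝ × ℝ => u.1) U := U_bdd measurable_fst fun u hu => by
    have := D_sub hu
    rw [Real.norm_eq_abs, abs_of_nonneg this.1.1.le]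
    exact this.1.2.le
  have i2 : Integrable (fun u : ℝ × ℝ => u.2) U := U_bdd measurable_snd fun u hu => by
    have := D_sub hu
    rw [Real.norm_eq_abs, abs_of_nonneg this.2.1.le]
    exact this.2.2.le
  have hmp := mu_pos U_good
  have hpos : ∀ᵐ u ∂U, 0 < u.1 ∧ 0 < u.2 := U_good.pos
  refine ⟨U, U_prob, U_ac, ?_, i1, i2, U_good.int, ?_, ?_, hmp,
    ⟨it U, it_iter U_good⟩, ?_⟩
  · filter_upwards [hpos] with u hu
    exact ⟨hu.1.le, hu.2.le⟩
  · refine hmp.trans_le (integral_mono_ae U_good.int i1 ?_)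
    filter_upwards [U_ae] with u hu
    have := D_sub hu
    exact mul_le_of_le_one_right this.1.1.le this.2.2.le
  · refine hmp.trans_le (integral_mono_ae U_good.int i2 ?_)
    filter_upwards [U_ae] with u hu
    have := D_sub hu
    exact mul_le_of_le_one_left this.2.1.le this.1.2.le
  · rintro P hP ⟨h1, h2, h3⟩
    have hPi : P = it U := funext (eq_it U_good hP)
    rw [hPi] at h1 h2 h3
    refine main U_good a a_nonneg (fun k => ?_) U_lt ?_ a_strict.monotone h1 h2 h3
    · filter_upwards [U_ae] with u hu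
      exact D_iff hu k
    · filter_upwards [U_ae] with u hu
      obtain ⟨k, h1, _⟩ := mem_iUnion.1 hu
      exact ⟨k + 1, h1.2.le⟩

end Pool.Agent.Results.MP_357d86_pr.DensityNotEnough
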